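import Pool.Agent.Helper79.GL4.GoalsB

/-! GL4 (MP_27a5f8_al): packets PCB and PUN. -/

set_option autoImplicit false
set_option linter.unusedVariables false

namespace GL4

open Module Submodule

section
variable {F : Type} [Field F] {V : Type} [AddCommGroup V] [Module F V]
  [FiniteDimensional F V]

/-- the construction of `ParC` from `BC` at one flag -/
theorem parC_flag (K : Subgroup (V ≃ₗ[F] V)) (c : ℕ) (P H : Submodule F V) (hP : Pt P)
    (hH : Hy H) (hPH : P ≤ H) (B C : Submodule F (V ⧸ P) → Submodule F (V ⧸ P))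
    (h : BC (qGrp K P) c B C) :
    ∃ Z : Submodule F V, P ≤ Z ∧ Z ≤ H ∧ finrank F Z = c + 1 ∧
      (∀ g ∈ K, im g P = P → im g H = H → im g Z = Z) ∧
      ∀ H₁ H₂, Hy H₁ → Hy H₂ → P ≤ H₁ → P ≤ H₂ → ¬ Z ≤ H₁ → ¬ Z ≤ H₂ →
        ∃ g ∈ K, im g P = P ∧ im g H = H ∧ im g H₁ = H₂ := by
  have hH' : Hy (H.map P.mkQ) := hH.down hPH
  refine ⟨(C (H.map P.mkQ)).comap P.mkQ, le_up _, ?_, ?_, ?_, ?_⟩
  · have h1 : C (H.map P.mkQ) ≤ H.map P.mkQ := by
      apply le_of_pts
      intro x hx hxC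
      exact (h.selfB x hx).trans ((h.adj x _ hx hH').1 hxC)
    have h2 := up_le_up.2 h1
    rwa [up_down hPH] at h2
  · rw [finrank_up, h.dimC _ hH', hP]
  · intro g hg hgP hgH
    obtain ⟨g', hg', hgg⟩ := exists_qGrp hg hgP
    have h1 : im g' (H.map P.mkQ) = H.map P.mkQ := by
      rw [im_down hgg, hgH]
    have h2 := h.eqC g' hg' _ hH'
    rw [h1] at h2
    rw [← im_up hgP hgg, ← h2]
  · intro H₁ H₂ h₁ h₂ hP₁ hP₂ hZ₁ hZ₂
    have hn : ∀ M : Submodule F V, P ≤ M → ¬ (C (H.map P.mkQ)).comap P.mkQ ≤ M →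
        ¬ C (H.map P.mkQ) ≤ M.map P.mkQ := by
      intro M hPM hM hc
      apply hM
      have := up_le_up.2 hc
      rwa [up_down hPM] at this
    obtain ⟨g, hg, e1, e2⟩ := h.trC _ _ _ hH' (h₁.down hP₁) (h₂.down hP₂) (hn _ hP₁ hZ₁)
      (hn _ hP₂ hZ₂)
    obtain ⟨k, hk, hkP, hkk⟩ := hg
    have hle : ∀ M : Submodule F V, P ≤ M → P ≤ im k M := by
      intro M hM
      conv_lhs => rw [← hkP]
      exact im_mono k hM
    refine ⟨k, hk, hkP, ?_, ?_⟩
    · rw [im_down hkk] at e1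
      exact (down_inj (hle _ hPH) hPH).1 e1
    · rw [im_down hkk] at e2
      exact (down_inj (hle _ hP₁) hP₂).1 e2

/-- the construction of `ParB` from `BC` at one flag -/
theorem parB_flag (K : Subgroup (V ≃ₗ[F] V)) (c : ℕ) (P H : Submodule F V) (hP : Pt P)
    (hH : Hy H) (hPH : P ≤ H) (B C : Submodule F H → Submodule F H)
    (h : BC (sGrp K H) c B C) :
    ∃ Z : Submodule F V, P ≤ Z ∧ Z ≤ H ∧ finrank F Z + c + 1 = finrank F V ∧
      (∀ g ∈ K, im g P = P → im g H = H → im g Z = Z) ∧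
      ∀ x y, Pt x → Pt y → x ≤ H → y ≤ H → ¬ x ≤ Z → ¬ y ≤ Z →
        ∃ g ∈ K, im g P = P ∧ im g H = H ∧ im g x = y := by
  have hpt : ∀ x : Submodule F V, Pt x → x ≤ H → Pt (x.comap H.subtype) := by
    intro x hx hxH
    rw [Pt, finrank_restr hxH]; exact hx
  have hP' := hpt P hP hPH
  refine ⟨(B (P.comap H.subtype)).map H.subtype, ?_, incl_le _, ?_, ?_, ?_⟩
  · conv_lhs => rw [← incl_restr hPH]
    exact Submodule.map_mono (h.selfB _ hP')
  · have h1 := h.dimB _ hP'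
    rw [finrank_incl]
    rw [Hy] at hH
    omega
  · intro g hg hgP hgH
    obtain ⟨g', hg', hgg⟩ := exists_sGrp hg hgH
    have h1 : im g' (P.comap H.subtype) = P.comap H.subtype := by
      rw [im_restr hgH hgg hPH, hgP]
    have h2 := h.eqB g' hg' _ hP'
    rw [h1] at h2
    rw [← im_incl hgg, ← h2]
  · intro x y hx hy hxH hyH hxZ hyZ
    have hn : ∀ z : Submodule F V, z ≤ H → ¬ z ≤ (B (P.comap H.subtype)).map H.subtype →
        ¬ z.comap H.subtype ≤ B (P.comap H.subtype) := by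
      intro z hzH hz hc
      apply hz
      have := incl_le_incl.2 hc
      rwa [incl_restr hzH] at this
    obtain ⟨g, hg, e1, e2⟩ := h.trB _ _ _ hP' (hpt x hx hxH) (hpt y hy hyH) (hn _ hxH hxZ)
      (hn _ hyH hyZ)
    obtain ⟨k, hk, hkH, hkk⟩ := hg
    refine ⟨k, hk, ?_, hkH, ?_⟩
    · have h3 := im_incl hkk (P.comap H.subtype)
      rw [e1, incl_restr hPH] at h3
      exact h3.symm
    · have h3 := im_incl hkk (x.comap H.subtype)
      rw [e2, incl_restr hxH, incl_restr hyH] at h3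
      exact h3.symm

end

theorem pcb : PCB := by
  intro F _ _ V _ _ _ K c hV
  refine ⟨fun h => ?_, fun h => ?_⟩
  · intro P H hP hH hPH
    obtain ⟨B, C, hBC⟩ := h P hP
    exact parC_flag K c P H hP hH hPH B C hBC
  · intro P H hP hH hPH
    obtain ⟨B, C, hBC⟩ := h H hH
    exact parB_flag K c P H hP hH hPH B C hBC

theorem pun : PUN := by
  intro F _ _ V _ _ _ K c c' hV hc
  refine ⟨fun hpar P hP B C hBC => ?_, fun hpar H hH B C hBC => ?_⟩
  · have htop : ¬ (⊤ : Submodule F V) ≤ P := by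
      intro hle
      have h1 := Submodule.finrank_mono hle
      rw [finrank_top, hP] at h1
      omega
    obtain ⟨H, hH, hPH, -⟩ := exists_hy_not_ge htop
    obtain ⟨Z₁, a1, a2, a3, a4, a5⟩ := hpar P H hP hH hPH
    obtain ⟨Z₂, b1, b2, b3, b4, b5⟩ := parC_flag K c' P H hP hH hPH B C hBC
    have hc' := hBC.c1
    have n1 : ¬ Z₁ ≤ P := by
      intro hle
      have h1 := Submodule.finrank_mono hle
      rw [a3, hP] at h1
      omega
    have n2 : ¬ Z₂ ≤ P := by
      intro hle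
      have h1 := Submodule.finrank_mono hle
      rw [b3, hP] at h1
      omega
    obtain ⟨H₀, g0, g1, g2, g3⟩ := exists_hy_not_ge₂ n1 n2
    have k1 : ∀ M, Hy M → P ≤ M → ¬ Z₁ ≤ M → ¬ Z₂ ≤ M := by
      intro M hM hPM hZM hcon
      obtain ⟨k, hk, e1, e2, e3⟩ := a5 H₀ M g0 hM g1 hPM g2 hZM
      have h2 := b4 k hk e1 e2
      rw [← h2, ← e3, im_le_im_iff] at hcon
      exact g3 hcon
    have k2 : ∀ M, Hy M → P ≤ M → ¬ Z₂ ≤ M → ¬ Z₁ ≤ M := by
      intro M hM hPM hZM hcon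
      obtain ⟨k, hk, e1, e2, e3⟩ := b5 H₀ M g0 hM g1 hPM g3 hZM
      have h2 := a4 k hk e1 e2
      rw [← h2, ← e3, im_le_im_iff] at hcon
      exact g2 hcon
    have hZ : Z₁ = Z₂ := by
      apply le_antisymm
      · apply le_of_hys
        intro M hM hZM
        by_contra hcon
        exact k1 M hM (b1.trans hZM) hcon hZM
      · apply le_of_hys
        intro M hM hZM
        by_contra hcon
        exact k2 M hM (a1.trans hZM) hcon hZM
    rw [hZ, b3] at a3
    omega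
  · have hfH : finrank F H + 1 = finrank F V := hH
    have hHb : H ≠ ⊥ := by
      rintro rfl
      rw [finrank_bot] at hfH
      omega
    obtain ⟨P, hP, hPH⟩ := exists_pt_le hHb
    obtain ⟨Z₁, a1, a2, a3, a4, a5⟩ := hpar P H hP hH hPH
    obtain ⟨Z₂, b1, b2, b3, b4, b5⟩ := parB_flag K c' P H hP hH hPH B C hBC
    have hc' := hBC.c1
    have n1 : ¬ H ≤ Z₁ := by
      intro hle
      have h1 := Submodule.finrank_mono hle
      omega
    have n2 : ¬ H ≤ Z₂ := by
      intro hle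
      have h1 := Submodule.finrank_mono hle
      omega
    obtain ⟨x₀, g0, g1, g2, g3⟩ := exists_pt_not_le₂ n1 n2
    have k1 : ∀ x, Pt x → x ≤ H → ¬ x ≤ Z₁ → ¬ x ≤ Z₂ := by
      intro x hx hxH hxZ hcon
      obtain ⟨k, hk, e1, e2, e3⟩ := a5 x₀ x g0 hx g1 hxH g2 hxZ
      have h2 := b4 k hk e1 e2
      rw [← h2, ← e3, im_le_im_iff] at hcon
      exact g3 hcon
    have k2 : ∀ x, Pt x → x ≤ H → ¬ x ≤ Z₂ → ¬ x ≤ Z₁ := by
      intro x hx hxH hxZ hcon
      obtain ⟨k, hk, e1, e2, e3⟩ := b5 x₀ x g0 hx g1 hxH g3 hxZ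
      have h2 := a4 k hk e1 e2
      rw [← h2, ← e3, im_le_im_iff] at hcon
      exact g2 hcon
    have hZ : Z₁ = Z₂ := by
      apply le_antisymm
      · apply le_of_pts
        intro x hx hxZ
        by_contra hcon
        exact k2 x hx (hxZ.trans a2) hcon hxZ
      · apply le_of_pts
        intro x hx hxZ
        by_contra hcon
        exact k1 x hx (hxZ.trans b2) hcon hxZ
    rw [hZ] at a3
    omega

end GL4
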